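import Pool.Agent.P.MP_d66c6d_pr.G.Defs
import Pool.Agent.P.MP_d66c6d_pr.N.Iface

/-!
The almost sure structure of the levels of a soup.
-/

namespace Pool.Agent.P.MP_d66c6d_pr

open MeasureTheory ProbabilityTheory Set Metric Filter Topology
open scoped ENNReal

/-- Between two rational times the path winds around the first point of `F` that it meets. -/
def HQ (F : Set ℂ) (γ : Br) : Prop :=
  ∀ q q' : ℚ, 0 ≤ q → q < q' → q' < 1 → CircH F (sub q q' γ)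

/-- The labelled soup in `V` built from rooted loops and extra loops. -/
noncomputable def mkL (V : Set ℂ) (c₀ : ℝ) (p : Cfg Lp × Cfg (KC × ℝ)) : Cfg (KC × ℝ) :=
  ((p.1.map fun l => (trB (lp l).2, c₀)) ∪ p.2).res (Prod.fst ⁻¹' inK V)

/-- The law of the labelled soup in `V`. -/
noncomputable def lsV (ν : Measure Br) (c₀ : ℝ) (V : Set ℂ) : Measure (Cfg (KC × ℝ)) :=
  PP (muL2 c₀ ((muK ν).restrict (inK V)))

instance instProbLsV (ν : Measure Br) (c : ℝ) (V : Set ℂ) : IsProbabilityMeasure (lsV ν c V) :=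
  instProbPP _

-- deps: CUT
-- imports: Pool.Agent.P.MP_d66c6d_pr.S.Surr
/-- From the winding of the pieces to the winding at small times. -/
def S_HQD : Prop := ∀ (F : Set ℂ) (γ : Br), HQ F γ → HitQ γ F

-- deps: ENC CUT
-- imports: Pool.Agent.P.MP_d66c6d_pr.N.Cirm
/-- The winding property is jointly measurable. -/
def S_HQM : Prop := ∀ (Y : Type) [MeasurableSpace Y] (F : Y → Set ℂ), (∀ y, IsClosed (F y)) →
  MeasurableSet {q : Y × KC | q.2 ∈ hitK (F q.1)} → MeasurableSet {q : Y × Br | HQ (F q.1) q.2}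

-- deps: HITG CIRM SPLIT CUT
-- imports: Pool.Agent.P.MP_d66c6d_pr.N.Hitg
/-- Almost every loop winds around its first points in a closed set. -/
def S_HQL : Prop := ∀ ν : Measure Br, IsBridge ν → ∀ F : Set ℂ, IsClosed F →
  ∀ᵐ l ∂loopMeasure ν, HQ F (lp l).2

-- deps: HQM JMN JOINT
/-- The pairs of a configuration and a loop that does not wind around a cluster. -/
def S_HQB : Prop := MeasurableSet {q : Cfg KC × Lp | LF stdA q.1 ∧ ∃ A : KC, A ∈ q.1.pts ∧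
  ¬ HQ (closure (cluster (sets q.1) A)) (lp q.2).2}

-- deps: HQL HQB JOINT PPO MUK DEC
/-- A loop that leaves `W` winds around its first points on the clusters of the loops in `W`. -/
def S_HITL : Prop := ∀ ν : Measure Br, IsBridge ν → ∀ (c : ℝ) (W : Set ℂ), IsOpen W →
  ∀ᵐ N ∂PP (ENNReal.ofReal c • loopMeasure ν), ∀ l ∈ N.pts, ¬ trace l ⊆ W →
    ∀ A ∈ ins W (trace '' N.pts), HQ (closure (cluster (ins W (trace '' N.pts)) A)) (lp l).2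

-- deps: PPO JOINT MUK
/-- Laws of the labelled soup. -/
def S_LVA : Prop := ∀ ν : Measure Br, IsBridge ν → ∀ c₀ ∈ Icc (0 : ℝ) 1, ∀ V : Set ℂ, IsOpen V →
  SigmaFinite (muL2 c₀ ((muK ν).restrict (inK V))) ∧
  MeasurePreserving (Cfg.map fun p : KC × ℝ => (p.1, max p.2 c₀))
    (PP (muL ((muK ν).restrict (inK V)))) (lsV ν c₀ V) ∧
  (∀ c ∈ Icc c₀ 1, MeasurePreserving (lev c) (lsV ν c₀ V) (soupN ν c V)) ∧
  (∀ᵐ S ∂lsV ν c₀ V, LF (fun j => Prod.fst ⁻¹' stdA j) S ∧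
    ∀ p ∈ S.pts, p.1 ∈ inK V ∧ c₀ ≤ p.2 ∧ p.2 ≤ 1) ∧
  ∀ B : Set ℂ, IsOpen B → B ⊆ V →
    MeasurePreserving (Cfg.res (Prod.fst ⁻¹' inK B)) (lsV ν c₀ V) (lsV ν c₀ B)

-- deps: PPO MUK
/-- The labelled soup from rooted loops and extra loops. -/
def S_LVB : Prop :=
  (∀ (V : Set ℂ) (c₀ c : ℝ), c₀ ≤ c → ∀ p, sets (lev c (mkL V c₀ p)) = lay V p.1 p.2 c) ∧
  ∀ ν : Measure Br, IsBridge ν → ∀ c₀ : ℝ,
    MeasurePreserving (Cfg.map fun l : Lp => trB (lp l).2)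
      (PP (ENNReal.ofReal c₀ • loopMeasure ν)) (PP (ENNReal.ofReal c₀ • muK ν)) ∧
    ∀ R : ℝ, (∀ᵐ X ∂xsoup ν c₀ R, (lev c₀ X).pts = ∅) ∧ ∀ V : Set ℂ, IsOpen V → V ⊆ ball 0 R →
      MeasurePreserving (mkL V c₀)
        ((PP (ENNReal.ofReal c₀ • loopMeasure ν)).prod (xsoup ν c₀ R)) (lsV ν c₀ V)

-- deps: EXD EXM LVA
/-- No touching after an exploration, for the labelled soup. -/
def S_EXL : Prop := ∀ ν : Measure Br, IsBridge ν → ∀ c₀ c₁ c' : ℝ, 0 ≤ c₀ → c₀ ≤ c₁ → c₁ ≤ 1 →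
  c₁ < c' → Sub ν c' → ∀ V A : Set ℂ, IsOpen V → Bornology.IsBounded V → IsCompact A →
  IsPreconnected A → A.Nontrivial →
  ∀ᵐ S ∂lsV ν c₀ V, EXD (sets (lev c₀ S)) (sets (lev c₁ S)) A

-- deps:
/-- Big loops do not appear immediately above a level. -/
def S_RC : Prop := ∀ (S : Cfg (KC × ℝ)) (R c₀ c₁ : ℝ), LF (fun j => Prod.fst ⁻¹' stdA j) S →
  (∀ p ∈ S.pts, p.1 ∈ inK (ball 0 R)) → c₀ < c₁ → ∀ ξ > (0 : ℝ), ∃ c' ∈ Ioc c₀ c₁,
    ∀ K ∈ sets (lev c' S), ξ ≤ diam K → K ∈ sets (lev c₀ S)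

-- deps: SUB SUBX DEC LVA EXL RC
-- imports: Pool.Agent.P.MP_d66c6d_pr.G.IfaceX
/-- The part of the structure that involves only the traces. -/
def S_LAYT : Prop := ∀ ν : Measure Br, IsBridge ν → ∀ c₀ c₁ c₂ θ : ℝ, 0 < c₀ → c₀ < c₁ →
  c₁ < c₂ → c₂ ≤ 1 → Lvl ν c₂ θ → ∀ V : Set ℂ, IsOpen V → Bornology.IsBounded V →
  ∀ᵐ S ∂lsV ν c₀ V, Tame (sets (lev c₁ S)) ∧ SubT (sets (lev c₁ S)) ∧
    (∀ ξ > (0 : ℝ), ∃ c' ∈ Ioc c₀ c₁, ∀ K ∈ sets (lev c' S), ξ ≤ diam K → K ∈ sets (lev c₀ S)) ∧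
    (∀ q : ℚ × ℚ × ℚ, 0 < q.2.2 →
      EXD (sets (lev c₀ S)) (sets (lev c₁ S)) (closedBall (qp q) q.2.2)) ∧
    ∀ q q' : ℚ × ℚ × ℚ, 0 < q'.2.2 → ball (qp q) q.2.2 ⊆ V →
      EXD (ins (ball (qp q) q.2.2) (sets (lev c₀ S))) (ins (ball (qp q) q.2.2) (sets (lev c₀ S)))
        (closedBall (qp q') q'.2.2)

end Pool.Agent.P.MP_d66c6d_pr
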