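import Pool.Agent.P.MP_d66c6d_pr.L.Iface
import Pool.Agent.P.MP_d66c6d_pr.G.IfaceX
import Pool.Agent.P.MP_d66c6d_pr.S.Iface2
import Pool.Agent.P.MP_d66c6d_pr.N.Iface

/-! Step LAYT of the carpet project. -/

namespace Pool.Agent.P.MP_d66c6d_pr

open MeasureTheory ProbabilityTheory Set Metric Filter Topology
open scoped ENNReal

namespace LaytA

theorem subT_mono {T T' : Set (Set ℂ)} (h : SubT T') (hT : T ⊆ T') : SubT T := fun ρ hρ =>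
  let ⟨η, h1, h2⟩ := h ρ hρ
  ⟨η, h1, fun K hK hd x hx y ⟨K', a, b⟩ => h2 K (hT hK) hd x hx y
    ⟨K', Lk.mono (fun _ e => And.intro (hT e.1) e.2) a, b⟩⟩

theorem res (c : ℝ) (B : Set ℂ) (S : Cfg (KC × ℝ)) :
    sets (lev c (S.res (Prod.fst ⁻¹' inK B))) = ins B (sets (lev c S)) := by
  ext K
  constructor
  · rintro ⟨_, ⟨p, ⟨⟨h1, h2⟩, h3⟩, rfl⟩, rfl⟩
    exact ⟨⟨_, ⟨p, ⟨h1, h3⟩, rfl⟩, rfl⟩, h2⟩
  · rintro ⟨⟨_, ⟨p, ⟨h1, h3⟩, rfl⟩, rfl⟩, h2⟩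
    exact ⟨_, ⟨p, ⟨⟨h1, h2⟩, h3⟩, rfl⟩, rfl⟩

theorem nontriv (z : ℂ) {r : ℝ} (h : 0 < r) : (closedBall z r).Nontrivial :=
  ⟨z + r, by simp [abs_of_pos h], z, by simp [h.le], by simp [h.ne']⟩

end LaytA

theorem p_LAYT (hSUB : S_SUB) (hSUBX : S_SUBX) (hDEC : S_DEC) (hLVA : S_LVA) (hEXL : S_EXL) (hRC : S_RC) :
    S_LAYT := by
  intro ν hν c₀ c₁ c₂ θ h0 h1 h2 h3 hL V hV hb
  obtain ⟨R, hR⟩ := hb.subset_ball 0
  obtain ⟨-, -, a3, a4, a5⟩ := hLVA ν hν c₀ ⟨h0.le, by linarith⟩ V hV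
  have hs := (hSUBX ν hν c₂ θ hL).2
  have hE : ∀ c, c₀ ≤ c → c ≤ c₁ → ∀ W, IsOpen W → Bornology.IsBounded W → ∀ q : ℚ × ℚ × ℚ,
      ∀ᵐ S ∂lsV ν c₀ W, 0 < q.2.2 →
        EXD (sets (lev c₀ S)) (sets (lev c S)) (closedBall (qp q) q.2.2) := by
    intro c e1 e2 W e3 e4 q
    by_cases hq : 0 < q.2.2
    · exact (hEXL ν hν c₀ c c₂ h0.le e1 (by linarith) (by linarith) hs W _ e3 e4
        (isCompact_closedBall _ _) (convex_closedBall _ _).isPreconnected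
        (LaytA.nontriv _ (by exact_mod_cast hq))).mono fun _ h _ => h
    · exact .of_forall fun _ h => (hq h).elim
  have b1 := (a3 c₁ ⟨h1.le, by linarith⟩).quasiMeasurePreserving.ae
    (hDEC.1 KC _ _ ((hDEC.2 ν hν c₂).2.1 (inK (ball 0 R))) (fun A => mul_le_mul'
      (ENNReal.ofReal_le_ofReal h2.le) (Measure.restrict_mono (fun K e => Subset.trans e hR) le_rfl A))
      (fun S => Tame (sets S) ∧ SubT (sets S))
      (fun S T e h => ⟨h.1.mono (image_mono e), LaytA.subT_mono h.2 (image_mono e)⟩)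
      ((hSUB ν hν c₂ θ (by linarith) hL).1 R))
  have b2 : ∀ q q' : ℚ × ℚ × ℚ, ∀ᵐ S ∂lsV ν c₀ V, 0 < q'.2.2 → ball (qp q) q.2.2 ⊆ V →
      EXD (ins (ball (qp q) q.2.2) (sets (lev c₀ S))) (ins (ball (qp q) q.2.2) (sets (lev c₀ S)))
        (closedBall (qp q') q'.2.2) := by
    intro q q'
    by_cases hq : ball (qp q) q.2.2 ⊆ V
    · refine ((a5 _ isOpen_ball hq).quasiMeasurePreserving.ae
        (hE c₀ le_rfl h1.le _ isOpen_ball isBounded_ball q')).mono fun S h e _ => ?_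
      rw [← LaytA.res]
      exact h e
    · exact .of_forall fun _ _ h => (hq h).elim
  filter_upwards [b1, a4, ae_all_iff.2 (hE c₁ h1.le le_rfl V hV hb),
    ae_all_iff.2 fun q => ae_all_iff.2 (b2 q)] with S e1 e2 e3 e4
  exact ⟨e1.1, e1.2, hRC S R c₀ c₁ e2.1 (fun p hp => Subset.trans (e2.2 p hp).1 hR) h1, e3, e4⟩

end Pool.Agent.P.MP_d66c6d_pr
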