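import Pool.Agent.P.MP_d66c6d_pr.L.Iface
import Pool.Agent.P.MP_d66c6d_pr.N.Iface

/-! Step EXL of the carpet project. -/

namespace Pool.Agent.P.MP_d66c6d_pr

open MeasureTheory ProbabilityTheory Set Metric Filter Topology
open scoped ENNReal

namespace ExlA

theorem lev_max {c₀ c : ℝ} (h : c₀ ≤ c) (S : Cfg (KC × ℝ)) :
    lev c (S.map fun p : KC × ℝ => (p.1, max p.2 c₀)) = lev c S := by
  refine Cfg.ext (Subset.antisymm ?_ ?_)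
  · rintro _ ⟨_, ⟨⟨p, hp, rfl⟩, h1⟩, rfl⟩
    exact ⟨p, ⟨hp, (le_max_left p.2 c₀).trans h1⟩, rfl⟩
  · rintro _ ⟨p, ⟨hp, h1⟩, rfl⟩
    exact ⟨_, ⟨⟨p, hp, rfl⟩, max_le h1 h⟩, rfl⟩

end ExlA

open ExlA in
theorem p_EXL (hEXD : S_EXD) (hEXM : S_EXM) (hLVA : S_LVA) :
    S_EXL := by
  intro ν hν c₀ c₁ c' h0 h01 h1 h1' hs V A hV hVb hA hAc hAn
  obtain ⟨R, hR⟩ := hVb.subset_ball 0
  obtain ⟨G, hG, hG'⟩ := hEXM A c₀ c₁ R hA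
  obtain ⟨-, hmp, -, hLF, -⟩ := hLVA ν hν c₀ ⟨h0, h01.trans h1⟩ V hV
  have hin : ∀ᵐ S ∂lsV ν c₀ V, S ∈ G := by
    rw [← hmp.map_eq]
    refine (ae_map_iff (p := fun S => S ∈ G) hmp.measurable.aemeasurable hG).2 ?_
    filter_upwards [hmp.quasiMeasurePreserving.ae hLF,
      hEXD ν hν c₀ c₁ c' (h0.trans h01) h1 h1' hs V A hV hVb hA hAc hAn] with S a1 a2
    refine (hG' _ a1.1 fun p hp => (a1.2 p hp).1.trans hR).2 ?_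
    rw [lev_max le_rfl, lev_max h01]
    refine ⟨?_, a2.2⟩
    rintro _ ⟨p, hp, rfl⟩
    exact a2.1 p hp
  filter_upwards [hin, hLF] with S a1 a2
  obtain ⟨b1, b2⟩ := (hG' _ a2.1 fun p hp => (a2.2 p hp).1.trans hR).1 a1
  rw [closure_union, hA.isClosed.closure_eq] at b1 b2
  refine ⟨?_, b2⟩
  rintro _ ⟨_, ⟨p, hp, rfl⟩, rfl⟩
  exact b1 p hp.1

end Pool.Agent.P.MP_d66c6d_pr
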