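import Pool.Agent.P.MP_d66c6d_pr.L.Iface
import Pool.Agent.P.MP_d66c6d_pr.F.Iface
import Pool.Agent.P.MP_d66c6d_pr.N.Iface

/-! Step HITL of the carpet project. -/

namespace Pool.Agent.P.MP_d66c6d_pr

open MeasureTheory ProbabilityTheory Set Metric Filter Topology
open scoped ENNReal

namespace HitlA

theorem countable_of_LF {E : Type} {A : ℕ → Set E} {S : Cfg E} (h : LF A S) : S.pts.Countable := by
  refine (countable_iUnion fun j => (h.2 j).countable).mono fun x hx => ?_
  obtain ⟨j, hj⟩ := mem_iUnion.1 (h.1 hx)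
  exact mem_iUnion.2 ⟨j, hx, hj⟩

theorem sets_eq (W : Set ℂ) (N : Cfg Lp) :
    sets ((N.res ((fun l => trB (lp l).2) ⁻¹' inK W)).map fun l => trB (lp l).2) =
      ins W (trace '' N.pts) := by
  ext K
  simp only [mem_sets, Cfg.pts_map, Cfg.pts_res, ins, mem_image, mem_inter_iff, mem_preimage, inK,
    mem_ofPred_eq, coe_trB, range_lp]
  constructor
  · rintro ⟨_, ⟨l, ⟨h1, h2⟩, rfl⟩, rfl⟩
    rw [coe_trB, range_lp]
    exact ⟨⟨l, h1, rfl⟩, h2⟩
  · rintro ⟨⟨l, h1, rfl⟩, h2⟩
    exact ⟨_, ⟨l, ⟨h1, h2⟩, rfl⟩, by rw [coe_trB, range_lp]⟩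

end HitlA

open HitlA

theorem p_HITL (hHQL : S_HQL) (hHQB : S_HQB) (hJOINT : S_JOINT) (hPPO : S_PPO) (hMUK : S_MUK) (hDEC : S_DEC) :
    S_HITL := by
  intro ν hν c W hW
  have := (hMUK ν hν).1
  set m : Measure Lp := ENNReal.ofReal c • loopMeasure ν with hm
  have hsf : SigmaFinite m := by
    have e : m = c.toNNReal • loopMeasure ν := rfl
    rw [e]
    infer_instance
  let tr : Lp → KC := fun l => trB (lp l).2
  have htr : Measurable tr := by fun_prop
  have hK : MeasurableSet (inK W) := (isOpen_inK hW).measurableSet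
  have hI : MeasurableSet (tr ⁻¹' inK W) := htr hK
  have h1 : MeasurePreserving (fun S : Cfg Lp => (S.res (tr ⁻¹' inK W), S.res (tr ⁻¹' inK W)ᶜ))
      (PP m) ((PP (m.restrict (tr ⁻¹' inK W))).prod (PP (m.restrict (tr ⁻¹' inK W)ᶜ))) :=
    ⟨(measurable_res hI).prodMk (measurable_res hI.compl),
      (hPPO Lp m inferInstance).2.2.2.1 _ _ hI hI.compl disjoint_compl_right⟩
  have h2 : MeasurePreserving (Cfg.map tr) (PP (m.restrict (tr ⁻¹' inK W))) (soupN ν c W) := by
    refine ⟨measurable_cfgMap htr, ?_⟩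
    rw [(hPPO Lp _ inferInstance).2.2.1 KC tr htr, soupN, ← Measure.restrict_map htr hK, hm,
      Measure.map_smul, Measure.restrict_smul]
    rfl
  have h3 := (h2.prod (MeasurePreserving.id (PP (m.restrict (tr ⁻¹' inK W)ᶜ)))).comp h1
  have h4 := (hJOINT Lp).2.2.2 (m.restrict (tr ⁻¹' inK W)ᶜ) inferInstance (Cfg KC) (soupN ν c W)
    (by unfold soupN; infer_instance) _ hHQB (Eventually.of_forall fun S => by
      by_cases hS : LF stdA S
      · have h5 : ∀ᵐ l ∂loopMeasure ν, ∀ A ∈ S.pts,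
            HQ (closure (cluster (sets S) A)) (lp l).2 :=
          (ae_ball_iff (countable_of_LF hS)).2 fun A _ => hHQL ν hν _ isClosed_closure
        have h6 : m.restrict (tr ⁻¹' inK W)ᶜ ≪ loopMeasure ν :=
          Measure.absolutelyContinuous_restrict.trans Measure.smul_absolutelyContinuous
        refine measure_mono_null ?_ (h6 (ae_iff.1 h5))
        rintro l ⟨-, A, hA, hl⟩ h
        exact hl (h A hA)
      · refine measure_mono_null ?_ measure_empty
        rintro l ⟨h, -⟩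
        exact hS h)
  have h5 := h3.quasiMeasurePreserving.ae h4
  have h6 := (measurePreserving_fst.comp h1).quasiMeasurePreserving.ae
    (h2.quasiMeasurePreserving.ae (((hDEC.2 ν hν c).2.2.2 W).mono fun S hS => hS.1))
  filter_upwards [h5, h6] with N hN hL l hl hlW A hA
  rw [← sets_eq] at hA ⊢
  obtain ⟨K, hK', rfl⟩ := hA
  by_contra hc
  refine hN l ⟨hl, fun h => hlW ?_⟩ ⟨hL, K, hK', hc⟩
  rw [← range_lp]
  exact h

end Pool.Agent.P.MP_d66c6d_pr
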