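import Pool.Agent.P.MP_d66c6d_pr.L.Iface
import Pool.Agent.P.MP_d66c6d_pr.N.Iface
import Pool.Agent.P.MP_d66c6d_pr.F.Iface

/-! Step HQB of the carpet project. -/

namespace Pool.Agent.P.MP_d66c6d_pr

open MeasureTheory ProbabilityTheory Set Metric Filter Topology
open scoped ENNReal

namespace HqbA

theorem hit_iff (K : KC) (Z : Set ℂ) : K ∈ hitK (closure Z) ↔ ∀ n : ℕ, ∃ j : ℕ,
    K ∈ hitK (rb (Nat.pair j n)) ∧ (Z ∩ rb (Nat.pair j n)).Nonempty := by
  constructor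
  · rintro ⟨x, hx, hxZ⟩ n
    obtain ⟨j, hj⟩ := (TopologicalSpace.denseRange_denseSeq ℂ).exists_dist_lt x
      (show (0 : ℝ) < 1 / ((n : ℝ) + 1) by positivity)
    have h1 : x ∈ rb (Nat.pair j n) := by simpa [rb] using hj
    exact ⟨j, ⟨x, hx, h1⟩, by
      rw [inter_comm]
      exact mem_closure_iff.1 hxZ _ (isOpen_rb _) h1⟩
  · intro h
    by_contra hK
    have h1 : (K : Set ℂ) ⊆ (closure Z)ᶜ := fun x hx hxZ => hK ⟨x, hx, hxZ⟩
    obtain ⟨δ, hδ, h2⟩ := K.isCompact.exists_thickening_subset_open isClosed_closure.isOpen_compl h1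
    obtain ⟨n, hn⟩ := exists_nat_one_div_lt (half_pos hδ)
    obtain ⟨j, ⟨x, hx, hx'⟩, z, hz, hz'⟩ := h n
    simp only [rb, Nat.unpair_pair, mem_ball] at hx' hz'
    refine h2 (mem_thickening_iff.2 ⟨x, hx, ?_⟩) (subset_closure hz)
    have := dist_triangle_right z x (TopologicalSpace.denseSeq ℂ j)
    linarith

theorem cluster_eq {T : Set (Set ℂ)} {A : Set ℂ} (hA : A ∈ T) (h : A.Nonempty) :
    kset A T = cluster T A := by
  ext z
  rw [mem_kset]
  constructor
  · rintro ⟨K, hK, h1, K', h2, hz⟩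
    exact ⟨K', Relation.ReflTransGen.head ⟨hK, inter_comm K A ▸ h1⟩ h2, hz⟩
  · rintro ⟨K', h2, hz⟩
    exact ⟨A, hA, by rwa [inter_self], K', h2, hz⟩

/-- The closure of the cluster of a trace. -/
def F (y : Cfg KC × KC) : Set ℂ := {z | LF stdA y.1 ∧ z ∈ closure (kset y.2 (sets y.1))}

theorem F_eq {y : Cfg KC × KC} (h : LF stdA y.1) : F y = closure (kset y.2 (sets y.1)) := by
  ext z
  simp [F, h]

theorem closed_F (y : Cfg KC × KC) : IsClosed (F y) := by
  by_cases h : LF stdA y.1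
  · rw [F_eq h]
    exact isClosed_closure
  · simp [F, h]

theorem meas_F (hJMN : S_JMN) :
    MeasurableSet {q : (Cfg KC × KC) × KC | q.2 ∈ hitK (F q.1)} := by
  have h1 : ∀ i, MeasurableSet {q : KC × Cfg KC |
      LF stdA q.2 ∧ Joins (sets q.2) (q.1 : Set ℂ) (rb i)} := fun i =>
    hJMN.2.2.1 KC (fun y => (y : Set ℂ)) (fun _ => rb i)
      (measurable_swap measurableSet_meetK)
      (measurable_snd (isOpen_hitK (isOpen_rb i)).measurableSet)
  have h2 : {q : (Cfg KC × KC) × KC | q.2 ∈ hitK (F q.1)} = ⋂ n : ℕ, ⋃ j : ℕ,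
      Prod.snd ⁻¹' hitK (rb (Nat.pair j n)) ∩ (fun q : (Cfg KC × KC) × KC => (q.1.2, q.1.1)) ⁻¹'
        {q : KC × Cfg KC | LF stdA q.2 ∧ Joins (sets q.2) (q.1 : Set ℂ) (rb (Nat.pair j n))} := by
    ext q
    simp only [mem_ofPred_eq, mem_iInter, mem_iUnion, mem_inter_iff, mem_preimage, joins_iff_kset]
    by_cases h : LF stdA q.1.1
    · simp only [F_eq h, hit_iff, h, true_and]
    · simp [F, h, hitK]
  rw [h2]
  exact MeasurableSet.iInter fun n => MeasurableSet.iUnion fun j =>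
    (measurable_snd (isOpen_hitK (isOpen_rb _)).measurableSet).inter
      ((by fun_prop : Measurable fun q : (Cfg KC × KC) × KC => (q.1.2, q.1.1)) (h1 _))

end HqbA

theorem p_HQB (hHQM : S_HQM) (hJMN : S_JMN) (hJOINT : S_JOINT) :
    S_HQB := by
  have h1 := hHQM _ HqbA.F HqbA.closed_F (HqbA.meas_F hJMN)
  have h2 : Measurable fun q : Lp × Cfg KC × KC => (q.2, (lp q.1).2) := by fun_prop
  have h3 := ((hJOINT KC).2.2.1 stdA measurableSet_stdA Lp _ (h2 h1).compl).1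
  refine (measurable_swap h3).congr ?_
  ext q
  simp only [mem_preimage, mem_ofPred_eq, mem_compl_iff, Prod.fst_swap, Prod.snd_swap]
  refine and_congr_right fun h => exists_congr fun A => and_congr_right fun hA => ?_
  rw [HqbA.F_eq (y := (q.1, A)) h, HqbA.cluster_eq (mem_sets.2 ⟨A, hA, rfl⟩) A.nonempty]

end Pool.Agent.P.MP_d66c6d_pr
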