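import Pool.Agent.P.MP_d66c6d_pr.L.Iface
import Pool.Agent.P.MP_d66c6d_pr.B.Iface
import Pool.Agent.P.MP_d66c6d_pr.S.Surr

/-! Step HQD of the carpet project. -/

namespace Pool.Agent.P.MP_d66c6d_pr

open MeasureTheory ProbabilityTheory Set Metric Filter Topology
open scoped ENNReal

namespace HqdA

theorem loc {K : Set ℂ} (hK : IsClosed K) {p : ℂ} (hp : p ∉ K) :
    ∃ ε > (0 : ℝ), ∀ w ∈ ball p ε, (w ∈ fill K ↔ p ∈ fill K) := by
  obtain ⟨ε, hε, hb⟩ := Metric.isOpen_iff.1 hK.isOpen_compl p hp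
  have hd : Disjoint (ball p ε) K := subset_compl_iff_disjoint_right.1 hb
  have hc := (convex_ball p ε).isPreconnected
  exact ⟨ε, hε, fun w hw =>
    ⟨fill_conn hc hd hw (mem_ball_self hε), fill_conn hc hd (mem_ball_self hε) hw⟩⟩

/-- A part of the set that lies inside an enclosed disc is not needed. -/
theorem absorb {K L M : Set ℂ} (hK : IsCompact K) (h : K ⊆ L ∪ M) {z : ℂ} {a : ℝ}
    (hf : ball z a ⊆ fill K) (hL : L ⊆ ball z a) : ball z a ⊆ fill M := by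
  intro y hy
  by_contra hn
  have ho : IsOpen (fill K)ᶜ := Metric.isOpen_iff.2 fun p hp => by
    obtain ⟨ε, hε, hb⟩ := loc hK.isClosed fun h => hp (subset_fill K h)
    exact ⟨ε, hε, fun w hw h => hp ((hb w hw).1 h)⟩
  obtain ⟨R, hR, hKR⟩ := hK.isBounded.subset_ball_lt 0 z
  have hy' : y ∈ Mᶜ := fun h => hn (subset_fill M h)
  refine (isPreconnected_connectedComponentIn (F := Mᶜ) (x := y)).subset_of_closure_inter_subset
    ho ?_ ?_ (mem_connectedComponentIn hy') (hf hy)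
  · by_contra h0
    refine hn (isBounded_ball.subset (subset_trans (fun w hw => ?_) (fill_subset_ball hR hKR)))
    exact by_contra fun hw' => h0 ⟨w, hw, hw'⟩
  · rintro p ⟨hp, hpC⟩ hpf
    have h1 : p ∉ ball z a := fun hb => by
      obtain ⟨w, hw, hw'⟩ := mem_closure_iff.1 hp _ isOpen_ball hb
      exact hw' (hf hw)
    obtain ⟨ε, hε, hb⟩ := loc hK.isClosed (p := p) fun hk =>
      (h hk).elim (fun hl => h1 (hL hl)) (connectedComponentIn_subset _ _ hpC)
    obtain ⟨w, hw, hw'⟩ := mem_closure_iff.1 hp _ isOpen_ball (mem_ball_self hε)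
    exact hw' ((hb w hw).2 hpf)

end HqdA

theorem p_HQD (hCUT : S_CUT) :
    S_HQD := by
  intro F γ h q σ hq hσ hq0 hF hmin δ hδ
  obtain ⟨q', h1, h2⟩ := exists_rat_btwn (show (σ : ℝ) < min (σ + δ) 1 from
    lt_min (by linarith) hσ)
  rw [lt_min_iff] at h2
  have hq0' : (0 : ℝ) ≤ q := by exact_mod_cast hq0
  have hqq : (q : ℝ) < q' := hq.trans_lt h1
  have hd : (0 : ℝ) < q' - q := by linarith
  have hlt : ((σ : ℝ) - q) / (q' - q) < 1 := (div_lt_one hd).2 (by linarith)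
  have hmem : ((σ : ℝ) - q) / (q' - q) ∈ Icc (0 : ℝ) 1 := ⟨div_nonneg (by linarith) hd.le, hlt.le⟩
  have hcan : (q : ℝ) + ((σ : ℝ) - q) / (q' - q) * (q' - q) = σ := by
    rw [div_mul_cancel₀ _ hd.ne']
    ring
  have hval : sub q q' γ ⟨_, hmem⟩ = γ σ := by
    rw [sub_apply]
    congr 1
    change projIcc 0 1 zero_le_one ((q : ℝ) + ((σ : ℝ) - q) / (q' - q) * (q' - q)) = σ
    rw [hcan]
    exact projIcc_val zero_le_one σ
  obtain ⟨a, ha, hE⟩ := h q q' hq0 (by exact_mod_cast hqq) (by exact_mod_cast h2.2) ⟨_, hmem⟩ hlt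
    (by rw [hval]; exact hF) (fun u hu => by
      have hu' : (u : ℝ) * (q' - q) < σ - q := (lt_div_iff₀ hd).1 hu
      have hu0 : 0 ≤ (u : ℝ) * (q' - q) := mul_nonneg u.2.1 hd.le
      have hm : (q : ℝ) + (u : ℝ) * (q' - q) ∈ Icc (0 : ℝ) 1 := ⟨by linarith, by linarith⟩
      rw [sub_apply, projIcc_of_mem zero_le_one hm]
      refine hmin _ ?_ ?_
      · change (q : ℝ) ≤ q + (u : ℝ) * (q' - q)
        linarith
      · change (q : ℝ) + (u : ℝ) * (q' - q) < σ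
        linarith) 1 one_pos
  have hsub : sub (((σ : ℝ) - q) / (q' - q)) 1 (sub q q' γ) = sub σ q' γ := by
    rw [hCUT.2.1 q ⟨hq0', by linarith⟩ q' ⟨by linarith, h2.2.le⟩ _ hmem 1 ⟨zero_le_one, le_rfl⟩,
      hcan]
    congr 1
    ring
  rw [hval] at hE
  change closedBall _ a ⊆ fill (range (sub (((σ : ℝ) - q) / (q' - q)) 1 (sub q q' γ)) ∩ _) at hE
  rw [hsub] at hE
  have hf := ball_subset_closedBall.trans (hE.trans (fill_mono inter_subset_left))
  have hr := hCUT.2.2.2.1 σ q' σ.2.1 h1.le h2.2.le γ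
  obtain ⟨ε, hε, hc⟩ := Metric.continuous_iff.1 γ.continuous σ a ha
  obtain ⟨s, hs1, hs2⟩ := exists_between (show (σ : ℝ) < min (σ + ε) q' from
    lt_min (by linarith) h1)
  rw [lt_min_iff] at hs2
  refine ⟨s, q', hs1, hs2.2, h2.1, interior_maximal (HqdA.absorb (L := piece γ σ s)
    (isCompact_range (sub σ q' γ).continuous) ?_ hf ?_) isOpen_ball (mem_ball_self ha)⟩
  · rw [hr]
    rintro _ ⟨u, hu, rfl⟩
    rcases le_total (u : ℝ) s with h | h
    · exact Or.inl ⟨u, ⟨hu.1, h⟩, rfl⟩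
    · exact Or.inr ⟨u, ⟨h, hu.2⟩, rfl⟩
  · rintro _ ⟨u, hu, rfl⟩
    refine hc u ?_
    rw [Subtype.dist_eq, Real.dist_eq, abs_lt]
    constructor <;> linarith [hu.1, hu.2]

end Pool.Agent.P.MP_d66c6d_pr
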