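import Pool.Agent.P.MP_d66c6d_pr.L.Iface
import Pool.Agent.P.MP_d66c6d_pr.N.Iface
import Pool.Agent.P.MP_d66c6d_pr.B.Iface
import Pool.Agent.P.MP_d66c6d_pr.N.Hitg

/-! Step HQL of the carpet project. -/

namespace Pool.Agent.P.MP_d66c6d_pr

open MeasureTheory ProbabilityTheory Set Metric Filter Topology
open scoped ENNReal

namespace HqlA

theorem ae_split (hSPLIT : S_SPLIT) {ν : Measure Br} (hν : IsBridge ν) {t s : ℝ} (ht : 0 < t)
    (hs : s ∈ Ioo (0 : ℝ) 1) (x y : ℂ) {G : Set (Br × Br)} (hG : MeasurableSet G)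
    (h : ∀ z, ∀ᵐ α ∂brM ν (s * t) x z, ∀ᵐ β ∂brM ν ((1 - s) * t) z y, (α, β) ∈ G) :
    ∀ᵐ γ ∂brM ν t x y, (sub 0 s γ, sub s 1 γ) ∈ G := by
  have hm : Measurable fun γ : Br => (sub 0 s γ, sub s 1 γ) := by fun_prop
  have h1 := hSPLIT ν hν t ht s hs x y (Gᶜ.indicator 1) (measurable_one.indicator hG.compl)
  have h2 : ∫⁻ γ, (Gᶜ.indicator 1 : Br × Br → ℝ≥0∞) (sub 0 s γ, sub s 1 γ) ∂brM ν t x y = 0 := by
    rw [h1]
    refine (lintegral_congr fun z => ?_).trans lintegral_zero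
    refine (lintegral_congr_ae ?_).trans lintegral_zero
    filter_upwards [h z] with α hα
    refine (lintegral_congr_ae ?_).trans lintegral_zero
    filter_upwards [hα] with β hβ
    exact indicator_of_notMem (not_not.2 hβ) _
  filter_upwards [(lintegral_eq_zero_iff ((measurable_one.indicator hG.compl).comp hm)).1 h2]
    with γ hγ
  by_contra hc
  exact one_ne_zero ((indicator_of_mem (s := Gᶜ) hc (1 : Br × Br → ℝ≥0∞)).symm.trans hγ)

theorem ae_brM (hHITG : S_HITG) (hCIRM : S_CIRM) (hSPLIT : S_SPLIT) (hCUT : S_CUT)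
    {ν : Measure Br} (hν : IsBridge ν) {F : Set ℂ} (hF : IsClosed F) {q q' : ℝ} (h0 : 0 ≤ q)
    (h1 : q < q') (h2 : q' < 1) {t : ℝ} (ht : 0 < t) (x y : ℂ) :
    ∀ᵐ γ ∂brM ν t x y, CircH F (sub q q' γ) := by
  have hq' : 0 < q' := h0.trans_lt h1
  have hs : q / q' < 1 := (div_lt_one hq').2 h1
  have hH := ((hHITG ν hν).1 F hF).1
  have hm := hCIRM F hF
  have k1 : ∀ z, ∀ᵐ α ∂brM ν (q' * t) x z, CircH F (sub (q / q') 1 α) := fun z => by
    rcases h0.eq_or_lt with rfl | h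
    · simpa only [zero_div, hCUT.1] using hH _ x z
    · exact ae_split hSPLIT hν (mul_pos hq' ht) ⟨div_pos h hq', hs⟩ x z
        (G := {p | CircH F p.2}) (measurable_snd hm) fun w => .of_forall fun _ => hH _ w z
  have hm' : Measurable fun p : Br × Br => sub (q / q') 1 p.1 := by fun_prop
  filter_upwards [ae_split hSPLIT hν ht ⟨hq', h2⟩ x y (G := {p | CircH F (sub (q / q') 1 p.1)})
    (hm' hm) fun z => (k1 z).mono fun _ h => .of_forall fun _ => h] with γ hγ
  have e := hCUT.2.1 0 ⟨le_rfl, zero_le_one⟩ q' ⟨hq'.le, h2.le⟩ (q / q')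
    ⟨div_nonneg h0 hq'.le, hs.le⟩ 1 ⟨zero_le_one, le_rfl⟩ γ
  rw [sub_zero, zero_add, zero_add, one_mul, div_mul_cancel₀ _ hq'.ne'] at e
  exact e ▸ hγ

end HqlA

theorem p_HQL (hHITG : S_HITG) (hCIRM : S_CIRM) (hSPLIT : S_SPLIT) (hCUT : S_CUT) :
    S_HQL := by
  intro ν hν F hF
  have hp := hν.prob
  have key : ∀ q q' : ℝ, 0 ≤ q → q < q' → q' < 1 →
      ∀ᵐ l ∂loopMeasure ν, CircH F (sub q q' (lp l).2) := fun q q' h0 h1 h2 => by
    have hf : Measurable fun l : Lp => sub q q' (lp l).2 := by fun_prop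
    have hm : MeasurableSet {l : Lp | CircH F (sub q q' (lp l).2)} := hf (hCIRM F hF)
    unfold loopMeasure
    refine (Measure.ae_prod_iff_ae_ae hm).2 (Eventually.of_forall fun x => ?_)
    refine (Measure.ae_prod_iff_ae_ae (measurable_prodMk_left hm)).2 ?_
    have hpos : ∀ᵐ t ∂(((volume : Measure ℝ).restrict (Ioi 0)).withDensity
        fun t => ENNReal.ofReal (1 / (2 * Real.pi * t ^ 2))), t ∈ Ioi (0 : ℝ) :=
      (withDensity_absolutelyContinuous _ _).ae_le (ae_restrict_mem measurableSet_Ioi)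
    filter_upwards [hpos] with t ht
    have h3 := HqlA.ae_brM hHITG hCIRM hSPLIT hCUT hν hF h0 h1 h2 ht x x
    rw [brM, Measure.ae_ennreal_smul_measure_iff (HitgA.hk_ne_zero ht _)] at h3
    have hs : Measurable (seg x x t) :=
      Measurable.seg' measurable_const measurable_const measurable_const measurable_id
    exact ae_of_ae_map hs.aemeasurable h3
  refine ae_all_iff.2 fun q => ae_all_iff.2 fun q' => ?_
  by_cases h : 0 ≤ q ∧ q < q' ∧ q' < 1
  · exact (key q q' (by exact_mod_cast h.1) (by exact_mod_cast h.2.1)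
      (by exact_mod_cast h.2.2)).mono fun _ hl _ _ _ => hl
  · exact .of_forall fun _ h0 h1 h2 => absurd ⟨h0, h1, h2⟩ h

end Pool.Agent.P.MP_d66c6d_pr
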