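import Pool.Agent.P.MP_d66c6d_pr.L.Iface
import Pool.Agent.P.MP_d66c6d_pr.N.Iface
import Pool.Agent.P.MP_d66c6d_pr.B.Iface
import Pool.Agent.P.MP_d66c6d_pr.N.Cirm

/-! Step HQM of the carpet project. -/

namespace Pool.Agent.P.MP_d66c6d_pr

open MeasureTheory ProbabilityTheory Set Metric Filter Topology
open scoped ENNReal

namespace HqmA

open CirmA

variable {Y : Type} [MeasurableSpace Y] {F : Y → Set ℂ}

theorem meas_tau (hCUT : S_CUT) (hF : ∀ y, IsClosed (F y))
    (hm : MeasurableSet {q : Y × KC | q.2 ∈ hitK (F q.1)}) :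
    Measurable fun q : Y × Br => tau (F q.1) q.2 := by
  refine measurable_of_Ioi fun u => ?_
  rcases eq_or_lt_of_le (unitInterval.le_one' (t := u)) with rfl | hu
  · refine MeasurableSet.empty.congr (eq_empty_of_forall_notMem fun γ h => ?_).symm
    exact (show 1 < tau (F γ.1) γ.2 from h).not_ge unitInterval.le_one'
  · have h1 : Measurable fun q : Y × Br => (q.1, trB (sub 0 u q.2)) :=
      measurable_fst.prodMk (Measurable.trB'
        (Measurable.sub' measurable_const measurable_const measurable_snd))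
    refine (h1 hm).compl.congr ?_
    ext ⟨y, γ⟩
    simp only [mem_compl_iff, mem_preimage, mem_ofPred_eq, hitK, coe_trB, mem_Ioi,
      hCUT.2.2.2.1 0 u le_rfl u.2.1 u.2.2 γ]
    refine ⟨fun h => lt_of_not_ge fun h' => h ⟨_, ⟨_, ⟨(tau (F y) γ).2.1, h'⟩, rfl⟩,
      mem (hF y) (h'.trans_lt hu)⟩, ?_⟩
    rintro h ⟨_, ⟨s, hs, rfl⟩, h2⟩
    exact notMem (lt_of_le_of_lt (show s ≤ u from hs.2) h) h2

theorem circ_iff (hENC : S_ENC) {F : Set ℂ} (hF : IsClosed F) (γ : Br) : CircH F γ ↔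
    ¬ tau F γ < 1 ∨ ∀ m : ℕ, ∃ n : ℕ,
      Enc (sub (tau F γ) 1 γ) (γ (tau F γ)) (1 / ((n : ℝ) + 1)) (1 / ((m : ℝ) + 1)) := by
  rw [← imp_iff_not_or]
  constructor
  · intro h h1 m
    obtain ⟨a, ha, h2⟩ := h _ h1 (mem hF h1) (fun s hs => notMem hs) (1 / ((m : ℝ) + 1))
      (by positivity)
    obtain ⟨n, hn⟩ := exists_nat_one_div_lt ha
    exact ⟨n, hENC.2.1 _ _ _ _ _ _ _ _ Subset.rfl (by simpa using hn.le) (by simp) h2⟩
  · intro h τ h1 h2 h3 r hr
    have h4 : tau F γ = τ := by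
      have h5 : tau F γ ≤ τ := sInf_le h2
      exact h5.eq_or_lt.resolve_right fun h6 => h3 _ h6 (mem hF (h6.trans h1))
    obtain ⟨m, hm⟩ := exists_nat_one_div_lt hr
    obtain ⟨n, hn⟩ := h (h4 ▸ h1) m
    rw [h4] at hn
    exact ⟨1 / ((n : ℝ) + 1), by positivity, hENC.2.1 _ _ _ _ _ _ _ _ Subset.rfl (by simp)
      (by simpa using hm.le) hn⟩

theorem meas_circ (hENC : S_ENC) (hCUT : S_CUT) (hF : ∀ y, IsClosed (F y))
    (hm : MeasurableSet {q : Y × KC | q.2 ∈ hitK (F q.1)}) :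
    MeasurableSet {q : Y × Br | CircH (F q.1) q.2} := by
  have ht := meas_tau hCUT hF hm
  have e : {q : Y × Br | CircH (F q.1) q.2} = {q | tau (F q.1) q.2 < 1}ᶜ ∪ ⋂ m : ℕ, ⋃ n : ℕ,
      (fun q : Y × Br => (q.2 (tau (F q.1) q.2), sub (tau (F q.1) q.2) 1 q.2)) ⁻¹'
        {q : ℂ × Br | Enc q.2 q.1 (1 / ((n : ℝ) + 1)) (1 / ((m : ℝ) + 1))} := by
    ext q
    simp only [mem_union, mem_compl_iff, mem_ofPred_eq, mem_iInter, mem_iUnion, mem_preimage,
      circ_iff hENC (hF _)]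
  rw [e]
  refine (measurableSet_lt ht measurable_const).compl.union (MeasurableSet.iInter fun m =>
    MeasurableSet.iUnion fun n => Measurable.prodMk ?_ ?_ (hENC.1 _ _).measurableSet)
  · exact Measurable.evalBr measurable_snd ht
  · exact Measurable.sub' (measurable_subtype_coe.comp ht) measurable_const measurable_snd

end HqmA

open HqmA in
theorem p_HQM (hENC : S_ENC) (hCUT : S_CUT) :
    S_HQM := by
  intro Y _ F hF hm
  have hc := meas_circ hENC hCUT hF hm
  have e : {q : Y × Br | HQ (F q.1) q.2} = ⋂ a : ℚ, ⋂ b : ℚ, ⋂ (_ : 0 ≤ a), ⋂ (_ : a < b),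
      ⋂ (_ : b < 1), (fun q : Y × Br => (q.1, sub a b q.2)) ⁻¹' {q : Y × Br | CircH (F q.1) q.2} := by
    ext q
    simp only [HQ, mem_ofPred_eq, mem_iInter, mem_preimage]
  rw [e]
  refine MeasurableSet.iInter fun a => MeasurableSet.iInter fun b => MeasurableSet.iInter fun _ =>
    MeasurableSet.iInter fun _ => MeasurableSet.iInter fun _ => ?_
  exact (measurable_fst.prodMk
    (Measurable.sub' measurable_const measurable_const measurable_snd)) hc

end Pool.Agent.P.MP_d66c6d_pr
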