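import Pool.Agent.P.MP_d66c6d_pr.L.Iface
import Pool.Agent.P.MP_d66c6d_pr.F.Iface

/-! Step LVA of the carpet project. -/

namespace Pool.Agent.P.MP_d66c6d_pr

open MeasureTheory ProbabilityTheory Set Metric Filter Topology
open scoped ENNReal

namespace LvaA

/-- The law of the labels. -/
noncomputable def tau (c₀ : ℝ) : Measure ℝ :=
  ENNReal.ofReal c₀ • Measure.dirac c₀ + (volume : Measure ℝ).restrict (Ioc c₀ 1)

theorem fin_tau (c₀ : ℝ) : IsFiniteMeasure (tau c₀) := ⟨by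
  simp [tau]⟩

theorem muL2_eq (c₀ : ℝ) (m : Measure KC) [SFinite m] : muL2 c₀ m = m.prod (tau c₀) := by
  rw [tau, Measure.prod_add, Measure.prod_smul_right, Measure.prod_dirac, muL2, Measure.map_smul]

theorem map_tau {c₀ : ℝ} (h : c₀ ∈ Icc (0 : ℝ) 1) :
    ((volume : Measure ℝ).restrict (Ioc 0 1)).map (fun t => max t c₀) = tau c₀ := by
  rw [← Ioc_union_Ioc_eq_Ioc h.1 h.2, Measure.restrict_union (Ioc_disjoint_Ioc_of_le le_rfl)
    measurableSet_Ioc, Measure.map_add _ _ (by fun_prop), tau]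
  congr 1
  · rw [Measure.map_congr (g := fun _ => c₀)
      ((ae_restrict_mem measurableSet_Ioc).mono fun t ht => max_eq_right ht.2), Measure.map_const]
    simp
  · rw [Measure.map_congr (f := fun t => max t c₀) (g := id)
      ((ae_restrict_mem measurableSet_Ioc).mono fun t ht => max_eq_left ht.1.le), Measure.map_id]

theorem ae_tau {c₀ : ℝ} (h : c₀ ≤ 1) : ∀ᵐ t ∂tau c₀, c₀ ≤ t ∧ t ≤ 1 :=
  ae_add_measure_iff.2 ⟨Measure.ae_smul_measure (by simp [h]) _,
    (ae_restrict_mem measurableSet_Ioc).mono fun _ ht => ⟨ht.1.le, ht.2⟩⟩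

theorem lev_map {c₀ c : ℝ} (h : c₀ ≤ c) (S : Cfg (KC × ℝ)) :
    lev c (S.map fun p : KC × ℝ => (p.1, max p.2 c₀)) = lev c S := by
  ext K
  constructor
  · rintro ⟨_, ⟨⟨p, hp, rfl⟩, h1⟩, rfl⟩
    exact ⟨p, ⟨hp, (le_max_left p.2 c₀).trans h1⟩, rfl⟩
  · rintro ⟨p, ⟨hp, h1⟩, rfl⟩
    exact ⟨_, ⟨⟨p, hp, rfl⟩, max_le h1 h⟩, rfl⟩

end LvaA

open LvaA in
theorem p_LVA (hPPO : S_PPO) (hJOINT : S_JOINT) (hMUK : S_MUK) :
    S_LVA := by
  intro ν hν c₀ hc₀ V hV
  have := (hMUK ν hν).2.1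
  have := fin_tau c₀
  obtain ⟨C, -, hC⟩ := (hMUK ν hν).2.2.2.1
  have mψ : Measurable fun p : KC × ℝ => (p.1, max p.2 c₀) := by fun_prop
  have sL : SFinite (muL ((muK ν).restrict (inK V))) := by unfold muL; infer_instance
  have h2 : MeasurePreserving (Cfg.map fun p : KC × ℝ => (p.1, max p.2 c₀))
      (PP (muL ((muK ν).restrict (inK V)))) (lsV ν c₀ V) := by
    refine ⟨measurable_cfgMap mψ, ?_⟩
    rw [(hPPO _ _ sL).2.2.1 _ _ mψ, lsV, muL2_eq, ← map_tau hc₀, muL]
    congr 1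
    rw [← Measure.map_id (μ := (muK ν).restrict (inK V)),
      Measure.map_prod_map _ _ measurable_id (by fun_prop), Measure.map_id]
    rfl
  refine ⟨by rw [muL2_eq]; infer_instance, h2, fun c hc => ⟨measurable_lev c, ?_⟩, ?_,
    fun B hB hBV => ⟨measurable_res (measurable_fst (isOpen_inK hB).measurableSet), ?_⟩⟩
  · rw [← h2.map_eq, Measure.map_map (measurable_lev c) h2.measurable, soupN,
      ← (hMUK ν hν).2.2.2.2.2.2.2 _ inferInstance c ⟨hc₀.1.trans hc.1, hc.2⟩]
    congr 1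
    exact funext (lev_map hc.1)
  · rw [lsV, muL2_eq]
    refine ((hJOINT _).2.1 _ inferInstance _ (fun j => measurable_fst (measurableSet_stdA j))
      (fun j => ?_) ?_).and ((hPPO _ _ inferInstance).2.2.2.2.2.1 _
        ((Measure.quasiMeasurePreserving_fst.ae (ae_restrict_mem (isOpen_inK hV).measurableSet)).and
          (Measure.quasiMeasurePreserving_snd.ae (ae_tau hc₀.2))))
    · rw [← Set.prod_univ, Measure.prod_prod]
      exact ENNReal.mul_ne_top (ne_top_of_le_ne_top ENNReal.ofReal_ne_top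
        ((Measure.restrict_le_self _).trans (hC 0 _ _ (by positivity) (by positivity))))
        (measure_ne_top _ _)
    · rw [← preimage_iUnion, ← preimage_compl, ← Set.prod_univ, Measure.prod_prod,
        le_zero_iff.1 ((Measure.restrict_le_self _).trans (hMUK ν hν).2.2.2.2.1.le), zero_mul]
  · rw [lsV, lsV, muL2_eq, muL2_eq, (hPPO _ _ inferInstance).2.1 _
      (measurable_fst (isOpen_inK hB).measurableSet), ← Set.prod_univ,
      ← Measure.restrict_prod_eq_prod_univ, Measure.restrict_restrict (isOpen_inK hB).measurableSet,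
      inter_eq_left.2 (show inK B ⊆ inK V from fun K hK => subset_trans hK hBV)]

end Pool.Agent.P.MP_d66c6d_pr
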