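import Pool.Agent.P.MP_d66c6d_pr.L.Iface
import Pool.Agent.P.MP_d66c6d_pr.F.Iface

/-! Step LVB of the carpet project. -/

namespace Pool.Agent.P.MP_d66c6d_pr

open MeasureTheory ProbabilityTheory Set Metric Filter Topology
open scoped ENNReal

namespace LvbA

theorem one (V : Set ℂ) (c₀ c : ℝ) (h : c₀ ≤ c) (p : Cfg Lp × Cfg (KC × ℝ)) :
    sets (lev c (mkL V c₀ p)) = lay V p.1 p.2 c := by
  ext A
  constructor
  · rintro ⟨K, ⟨q, ⟨⟨hq, hV⟩, hc⟩, rfl⟩, rfl⟩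
    refine ⟨?_, hV⟩
    rcases hq with ⟨l, hl, rfl⟩ | hq
    · exact Or.inl ⟨l, hl, (range_lp l).symm⟩
    · exact Or.inr ⟨q.1, ⟨q, ⟨hq, hc⟩, rfl⟩, rfl⟩
  · rintro ⟨⟨l, hl, rfl⟩ | ⟨K, ⟨q, ⟨hq, hc⟩, rfl⟩, rfl⟩, hV⟩
    · refine ⟨trB (lp l).2, ⟨(trB (lp l).2, c₀), ⟨⟨Or.inl ⟨l, hl, rfl⟩, ?_⟩, h⟩, rfl⟩, range_lp l⟩
      exact (range_lp l).subset.trans hV
    · exact ⟨q.1, ⟨q, ⟨⟨Or.inr hq, hV⟩, hc⟩, rfl⟩, rfl⟩

end LvbA

theorem p_LVB (hPPO : S_PPO) (hMUK : S_MUK) :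
    S_LVB := by
  refine ⟨LvbA.one, fun ν hν c₀ => ?_⟩
  have h1 := (hMUK ν hν).1
  have h2 := (hMUK ν hν).2.1
  have mt : Measurable fun l : Lp => trB (lp l).2 :=
    continuous_trB.measurable.comp (measurable_snd.comp measurable_lp)
  have mk : Measurable fun K : KC => ((K, c₀) : KC × ℝ) := measurable_id.prodMk measurable_const
  have mt' : Measurable fun l : Lp => ((trB (lp l).2, c₀) : KC × ℝ) := mk.comp mt
  refine ⟨⟨measurable_cfgMap mt, ?_⟩, fun R => ⟨?_, fun V hV hVR => ?_⟩⟩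
  · rw [(hPPO Lp _ inferInstance).2.2.1 KC _ mt, Measure.map_smul, muK]
  · have h3 : ∀ᵐ x ∂((muK ν).restrict (inK (ball 0 R))).prod
        ((volume : Measure ℝ).restrict (Ioc c₀ 1)), c₀ < x.2 :=
      Measure.quasiMeasurePreserving_snd.ae
        ((ae_restrict_mem measurableSet_Ioc).mono fun t ht => ht.1)
    filter_upwards [(hPPO _ _ inferInstance).2.2.2.2.2.1 _ h3] with X hX
    refine eq_empty_of_forall_notMem ?_
    rintro K ⟨q, ⟨hq, hc⟩, rfl⟩
    exact absurd (hX q hq) (not_lt.2 hc)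
  · have hi : MeasurableSet (inK V) := (isOpen_inK hV).measurableSet
    have hi' : MeasurableSet (Prod.fst ⁻¹' inK V : Set (KC × ℝ)) := measurable_fst hi
    set m₁ : Measure (KC × ℝ) :=
      (ENNReal.ofReal c₀ • loopMeasure ν).map fun l => (trB (lp l).2, c₀) with hm₁
    set m₂ : Measure (KC × ℝ) := ((muK ν).restrict (inK (ball 0 R))).prod
      ((volume : Measure ℝ).restrict (Ioc c₀ 1)) with hm₂
    have a1 : MeasurePreserving (Cfg.map fun l : Lp => ((trB (lp l).2, c₀) : KC × ℝ))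
        (PP (ENNReal.ofReal c₀ • loopMeasure ν)) (PP m₁) :=
      ⟨measurable_cfgMap mt', (hPPO Lp _ inferInstance).2.2.1 _ _ mt'⟩
    have a2 : MeasurePreserving (fun p : Cfg (KC × ℝ) × Cfg (KC × ℝ) => p.1 ∪ p.2)
        ((PP m₁).prod (PP m₂)) (PP (m₁ + m₂)) :=
      ⟨Measurable.cfgUnion measurable_fst measurable_snd, (hPPO _ m₁ inferInstance).1 m₂ inferInstance⟩
    have a3 : MeasurePreserving (Cfg.res (Prod.fst ⁻¹' inK V)) (PP (m₁ + m₂))
        (PP ((m₁ + m₂).restrict (Prod.fst ⁻¹' inK V))) :=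
      ⟨measurable_res hi', (hPPO _ _ inferInstance).2.1 _ hi'⟩
    have e1 : m₁ = (ENNReal.ofReal c₀ • muK ν).map fun K => (K, c₀) := by
      rw [hm₁, muK, ← Measure.map_smul, Measure.map_map mk mt]
      rfl
    have e2 : (m₁ + m₂).restrict (Prod.fst ⁻¹' inK V) = muL2 c₀ ((muK ν).restrict (inK V)) := by
      rw [Measure.restrict_add, muL2]
      congr 1
      · rw [e1, Measure.restrict_map mk hi', Measure.restrict_smul]
        rfl
      · have e3 : inK V ⊆ inK (ball 0 R) := fun K hK => Subset.trans hK hVR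
        rw [hm₂, ← prod_univ, ← Measure.prod_restrict, Measure.restrict_univ,
          Measure.restrict_restrict hi, inter_eq_left.2 e3]
    rw [e2] at a3
    exact a3.comp (a2.comp (a1.prod (MeasurePreserving.id (PP m₂))))

end Pool.Agent.P.MP_d66c6d_pr
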