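import Pool.Agent.P.MP_d66c6d_pr.L.Iface

/-! Step RC of the carpet project. -/

namespace Pool.Agent.P.MP_d66c6d_pr

open MeasureTheory ProbabilityTheory Set Metric Filter Topology
open scoped ENNReal

theorem p_RC :
    S_RC := by
  intro S R c₀ c₁ hLF hR hc ξ hξ
  obtain ⟨j, hj⟩ := exists_nat_ge (max R (1 / ξ))
  have h1 : R ≤ (j : ℝ) + 1 := by linarith [le_max_left R (1 / ξ)]
  have h2 : 1 / ((j : ℝ) + 1) ≤ ξ := by
    rw [one_div_le (by positivity) hξ]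
    linarith [le_max_right R (1 / ξ)]
  have h3 : ∀ᶠ c in 𝓝[>] c₀, ∀ p ∈ S.pts ∩ Prod.fst ⁻¹' stdA j, p.2 ≤ c → p.2 ≤ c₀ := by
    refine (eventually_all_finite (hLF.2 j)).2 fun p _ => ?_
    rcases le_or_gt p.2 c₀ with h | h
    · exact Eventually.of_forall fun _ _ => h
    · filter_upwards [Ioo_mem_nhdsGT h] with c hc' h'
      exact absurd hc'.2 (not_lt.2 h')
  obtain ⟨c', h4, h5⟩ := (h3.and (Ioc_mem_nhdsGT hc)).exists
  refine ⟨c', h5, ?_⟩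
  rintro _ ⟨_, ⟨p, hp, rfl⟩, rfl⟩ hd
  exact ⟨p.1, ⟨p, ⟨hp.1, h4 p ⟨hp.1, (hR p hp.1).trans (ball_subset_ball h1), h2.trans hd⟩ hp.2⟩,
    rfl⟩, rfl⟩

end Pool.Agent.P.MP_d66c6d_pr
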